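import Pool.Agent.BEL.StmtsE

/-! Squad BEL, module CVG: convergence of flows. -/

namespace Pool.Agent.BEL.H30

open MeasureTheory Filter Topology Set
open scoped InnerProductSpace ENNReal NNReal

theorem cvg (GRQ : GrqStmt) (FLE : FleStmt) (FLP : FlpStmt) : CvgStmt := by
  intro H _ _ _ κ b om W F Q hG hL hM h0 hQ hC
  choose K hK using hL
  choose Z hZ using fun n V => FLE H κ b om W (F n) (K n) V hG (hK n)
  obtain ⟨-, -, hnorm, -⟩ := GRQ H κ b om W hG
  have hcontr : ∀ n V V' t, 0 ≤ t → ‖Z n V t - Z n V' t‖ ≤ ‖V - V'‖ := by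
    intro n V V' t ht
    have := (FLP H κ b om W (F n) (K n) hG (hK n) (hM n) (h0 n) V V' (Z n V) (Z n V')
      (hZ n V) (hZ n V')).2.2.2.1 0 t ht
    rwa [(hZ n V).z0, (hZ n V').z0] at this
  have key : ∀ V : KK H, ∀ T, ∀ ε > 0, ∃ N, ∀ n ≥ N, ∀ m ≥ n, ∀ t ∈ Icc (0 : ℝ) T,
      ‖Z n V t - Z m V t‖ ≤ ε := by
    intro V T ε hε
    obtain ⟨V', hV', hd⟩ := Metric.dense_iff.1 hQ V (ε / 3) (by positivity)
    obtain ⟨N, hN⟩ := hC V' hd (fun n => Z n V') (fun n => hZ n V') T (ε / 3) (by positivity)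
    refine ⟨N, fun n hn m hm t ht => ?_⟩
    have hVV : ‖V - V'‖ ≤ ε / 3 := by
      have := Metric.mem_ball.1 hV'
      rw [dist_comm, dist_eq_norm] at this
      exact this.le
    have h1 := (hcontr n V V' t ht.1).trans hVV
    have h2 := hN n hn m hm t ht
    have h3 := (hcontr m V V' t ht.1).trans hVV
    have h4 : Z n V t - Z m V t = (Z n V t - Z n V' t) + (Z n V' t - Z m V' t) -
        (Z m V t - Z m V' t) := by abel
    rw [h4]
    refine (norm_sub_le _ _).trans ?_
    have h5 := norm_add_le (Z n V t - Z n V' t) (Z n V' t - Z m V' t)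
    linarith
  have hUC : ∀ V T, UniformCauchySeqOn (fun n t => W t (Z n V t)) atTop (Icc (0 : ℝ) T) := by
    intro V T
    rw [Metric.uniformCauchySeqOn_iff]
    intro ε hε
    obtain ⟨N, hN⟩ := key V T (ε / 2) (by positivity)
    refine ⟨N, fun m hm n hn t ht => ?_⟩
    rw [dist_eq_norm, ← map_sub, hnorm]
    rcases le_total m n with h | h
    · have := hN m hm n h t ht
      linarith
    · have := hN n hn m h t ht
      rw [norm_sub_rev] at this
      linarith
  refine ⟨Z, fun t V => limUnder atTop (fun n => W t (Z n V t)), ⟨hZ, fun V T => ?_⟩⟩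
  refine (hUC V T).tendstoUniformlyOn_of_tendsto (fun t ht => ?_)
  have hc : CauchySeq (fun n => W t (Z n V t)) := (hUC V T).cauchySeq ht
  exact hc.tendsto_limUnder

end Pool.Agent.BEL.H30
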