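import Pool.Agent.BEL.StmtsD
import Pool.Agent.BEL.StmtsE

/-! Squad BEL, module DSP: consequences of the energy identity. -/

namespace Pool.Agent.BEL.H30

open MeasureTheory Filter Topology Set
open scoped InnerProductSpace ENNReal NNReal

theorem dsp_pt1 {p q l τ : ℝ} (s : ℝ) (hq : 0 < q) (hqp : q < p) (hl : 0 < l) (hτ : 0 < τ) :
    mm q l s ≤ τ ^ (q - p) * mm p l s + τ ^ q := by
  unfold mm
  have hn : 0 ≤ min |s| l := le_min (abs_nonneg _) hl.le
  generalize min |s| l = n at hn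
  rcases le_or_gt n τ with h | h
  · have h1 : n ^ q ≤ τ ^ q := Real.rpow_le_rpow hn h hq.le
    have h2 : 0 ≤ τ ^ (q - p) * n ^ p := by positivity
    linarith
  · have hn' : 0 < n := hτ.trans h
    have h1 : n ^ q = n ^ (q - p) * n ^ p := by
      rw [← Real.rpow_add hn']
      congr 1
      ring
    have h2 : n ^ (q - p) ≤ τ ^ (q - p) := Real.rpow_le_rpow_of_nonpos hτ h.le (by linarith)
    have h3 : n ^ (q - p) * n ^ p ≤ τ ^ (q - p) * n ^ p :=
      mul_le_mul_of_nonneg_right h2 (by positivity)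
    have h4 : 0 ≤ τ ^ q := by positivity
    linarith

theorem dsp_pt2 {a al l M : ℝ} (s : ℝ) (ha : 0 < a) (hal : 0 < al) (hl : 0 < l) (hM : 0 < M) :
    max (ql a al l s - M) 0 ≤
      (a * (al + 1)) ^ (1 + 2 / al) * M ^ (-(2 / al)) * mm (al + 2) l s := by
  unfold ql mm
  have hn : 0 ≤ min |s| l := le_min (abs_nonneg _) hl.le
  generalize min |s| l = n at hn
  have hA : 0 < a * (al + 1) := by positivity
  generalize a * (al + 1) = A at hA
  have h0 : 0 ≤ A ^ (1 + 2 / al) * M ^ (-(2 / al)) * n ^ (al + 2) := by positivity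
  refine max_le ?_ h0
  rcases le_or_gt (A * n ^ al) M with h | h
  · linarith
  · have hx : 0 < A * n ^ al := hM.trans h
    have hn' : 0 < n := by
      rcases hn.eq_or_lt with h' | h'
      · rw [← h', Real.zero_rpow hal.ne', mul_zero] at hx
        exact absurd hx (lt_irrefl 0)
      · exact h'
    have h1 : 1 ≤ (A * n ^ al / M) ^ (2 / al) :=
      Real.one_le_rpow (by rw [one_le_div hM]; exact h.le) (by positivity)
    have h2 : A * n ^ al * (A * n ^ al / M) ^ (2 / al) =
        A ^ (1 + 2 / al) * M ^ (-(2 / al)) * n ^ (al + 2) := by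
      rw [Real.div_rpow hx.le hM.le, Real.mul_rpow hA.le (by positivity), ← Real.rpow_mul hn,
        Real.rpow_add hA, Real.rpow_add hn', Real.rpow_neg hM.le, Real.rpow_one,
        show al * (2 / al) = 2 by field_simp]
      ring
    have h3 : A * n ^ al ≤ A * n ^ al * (A * n ^ al / M) ^ (2 / al) :=
      le_mul_of_one_le_right hx.le h1
    linarith

theorem dsp_opt {I E T c m p q : ℝ} (hE : 0 < E) (hT : 0 < T) (hq : 0 < q) (hqp : q < p)
    (h : ∀ τ > 0, I ≤ c * E * τ ^ (q - p) + m * T * τ ^ q) :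
    I ≤ (c + m) * T ^ ((p - q) / p) * E ^ (q / p) := by
  have hp : 0 < p := hq.trans hqp
  have hET : 0 < E / T := by positivity
  have h0 := h ((E / T) ^ (1 / p)) (by positivity)
  have e1 : ((E / T) ^ (1 / p)) ^ q = (E / T) ^ (q / p) := by
    rw [← Real.rpow_mul hET.le]
    congr 1
    ring
  have e2 : ((E / T) ^ (1 / p)) ^ (q - p) = (E / T) ^ (q / p) * (T / E) := by
    rw [← Real.rpow_mul hET.le, show 1 / p * (q - p) = q / p - 1 by field_simp,
      Real.rpow_sub hET, Real.rpow_one]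
    field_simp
  have e3 : T * (E / T) ^ (q / p) = T ^ ((p - q) / p) * E ^ (q / p) := by
    rw [Real.div_rpow hE.le hT.le, show (p - q) / p = 1 - q / p by field_simp,
      Real.rpow_sub hT, Real.rpow_one]
    ring
  rw [e1, e2] at h0
  have e4 : c * E * ((E / T) ^ (q / p) * (T / E)) + m * T * (E / T) ^ (q / p) =
      (c + m) * (T * (E / T) ^ (q / p)) := by
    field_simp
  rw [e4, e3] at h0
  linarith

theorem dsp (FLP : FlpStmt) (GLP : GlpStmt) (NEM : NemStmt) (CGL : CglStmt) (CTJ : CtjStmt) :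
    DspStmt := by
  intro a al mX ha hal hmX
  have hA : 0 < a * (al + 1) := by positivity
  obtain ⟨A, hAdef⟩ : ∃ A, A = a * (al + 1) := ⟨_, rfl⟩
  have hA' : 0 < A := hAdef ▸ hA
  refine ⟨1 / (2 * a) + (1 / (2 * a) + mX) + A ^ (1 + 2 / al) * (1 / (2 * a)) +
    A * (1 / (2 * a) + mX), by positivity, ?_⟩
  obtain ⟨C, hCdef⟩ : ∃ C, C = 1 / (2 * a) + (1 / (2 * a) + mX) + A ^ (1 + 2 / al) * (1 / (2 * a)) +
    A * (1 / (2 * a) + mX) := ⟨_, rfl⟩
  rw [← hCdef]
  have hC1 : 1 / (2 * a) ≤ C := by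
    rw [hCdef]
    have h1 : 0 ≤ 1 / (2 * a) + mX := by positivity
    have h2 : 0 ≤ A ^ (1 + 2 / al) * (1 / (2 * a)) := by positivity
    have h3 : 0 ≤ A * (1 / (2 * a) + mX) := by positivity
    linarith
  have hC2 : 1 / (2 * a) + mX ≤ C := by
    rw [hCdef]
    have h1 : 0 ≤ 1 / (2 * a) := by positivity
    have h2 : 0 ≤ A ^ (1 + 2 / al) * (1 / (2 * a)) := by positivity
    have h3 : 0 ≤ A * (1 / (2 * a) + mX) := by positivity
    linarith
  have hC3 : A ^ (1 + 2 / al) * (1 / (2 * a)) ≤ C := by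
    rw [hCdef]
    have h1 : 0 ≤ 1 / (2 * a) := by positivity
    have h2 : 0 ≤ 1 / (2 * a) + mX := by positivity
    have h3 : 0 ≤ A * (1 / (2 * a) + mX) := by positivity
    linarith
  have hC4 : A * (1 / (2 * a) + mX) ≤ C := by
    rw [hCdef]
    have h1 : 0 ≤ 1 / (2 * a) := by positivity
    have h2 : 0 ≤ 1 / (2 * a) + mX := by positivity
    have h3 : 0 ≤ A ^ (1 + 2 / al) * (1 / (2 * a)) := by positivity
    linarith
  have hC0 : 0 ≤ C := by
    have : 0 ≤ 1 / (2 * a) := by positivity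
    linarith
  intro X _ μ _ κ b om W l V Z hμ hG hl hZ s t hst
  obtain ⟨-, gLip, gMono, g0, -⟩ := GLP a al ha hal
  obtain ⟨-, nLip, n0, nIn, nInt, nMono⟩ := NEM X μ (gl a al l) _ (gLip l hl.le) (g0 l)
  obtain ⟨vc, Fc, zdec, -, zen⟩ := FLP (Lp ℝ 2 μ) κ b om W (nem μ (gl a al l)) _ hG nLip
    (nMono (gMono l hl.le)) n0 V V Z Z hZ hZ
  obtain ⟨v, hv⟩ : ∃ v : ℝ → Lp ℝ 2 μ, v = fun r => P2 (W r (Z r)) := ⟨_, rfl⟩
  have hvr : ∀ r, P2 (W r (Z r)) = v r := fun r => by rw [hv]
  simp only [hvr] at vc Fc zen ⊢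
  -- bounded continuous functions
  have hint : ∀ (G : ℝ → ℝ) (B : ℝ), Continuous G → (∀ y, |G y| ≤ B) → ∀ r,
      Integrable (fun x => G (v r x)) μ := by
    intro G B hGc hGB r
    exact Integrable.of_bound (hGc.comp_aestronglyMeasurable (Lp.aestronglyMeasurable _)) B
      (Eventually.of_forall fun x => by simpa using hGB (v r x))
  have hcont : ∀ (G : ℝ → ℝ) (B : ℝ), Continuous G → (∀ y, |G y| ≤ B) →
      Continuous fun r => ∫ x, G (v r x) ∂μ := by
    intro G B hGc hGB
    exact CTJ X μ (fun p _ => G p) B (hGc.comp continuous_fst) (fun p _ => hGB p) v v vc vc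
  have hmmc : ∀ q, 0 < q → Continuous (mm q l) := fun q hq => (CGL 1 q l one_pos hq hl.le).1
  have hmm0 : ∀ q, 0 < q → ∀ y, 0 ≤ mm q l y := fun q hq =>
    (CGL 1 q l one_pos hq hl.le).2.2.2.2.2.1
  have hmml : ∀ q, 0 < q → ∀ y, mm q l y ≤ l ^ q := fun q hq =>
    (CGL 1 q l one_pos hq hl.le).2.2.2.2.2.2.1
  have hmmB : ∀ q, 0 < q → ∀ y, |mm q l y| ≤ l ^ q := fun q hq y => by
    rw [abs_of_nonneg (hmm0 q hq y)]
    exact hmml q hq y
  obtain ⟨-, qlc, -, -, -, -, -, -, -, -, gco, -, gmm, -, -⟩ := CGL a al l ha hal hl.le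
  -- comparison of integrals
  have hcmp : ∀ (G G' : ℝ → ℝ) (B B' α β : ℝ), Continuous G → (∀ y, |G y| ≤ B) →
      Continuous G' → (∀ y, |G' y| ≤ B') → 0 ≤ β → (∀ y, G y ≤ α * G' y + β) →
      ∫ r in s..t, ∫ x, G (v r x) ∂μ ≤
        α * (∫ r in s..t, ∫ x, G' (v r x) ∂μ) + β * (t - s) * mX := by
    intro G G' B B' α β hG1 hG2 hG3 hG4 hβ hGG
    have h1 : ∀ r, ∫ x, G (v r x) ∂μ ≤ α * (∫ x, G' (v r x) ∂μ) + β * mX := by
      intro r
      calc ∫ x, G (v r x) ∂μ ≤ ∫ x, (α * G' (v r x) + β) ∂μ := by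
            refine integral_mono (hint G B hG1 hG2 r)
              (((hint G' B' hG3 hG4 r).const_mul α).add (integrable_const β)) fun x => hGG _
        _ = α * (∫ x, G' (v r x) ∂μ) + μ.real univ * β := by
            rw [integral_add ((hint G' B' hG3 hG4 r).const_mul α) (integrable_const β),
              integral_const_mul, integral_const, smul_eq_mul]
        _ ≤ _ := by
            have := mul_le_mul_of_nonneg_right hμ hβ
            linarith
    have h2 : ∫ r in s..t, ∫ x, G (v r x) ∂μ ≤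
        ∫ r in s..t, (α * (∫ x, G' (v r x) ∂μ) + β * mX) := by
      refine intervalIntegral.integral_mono_on hst
        ((hcont G B hG1 hG2).intervalIntegrable _ _)
        ((((hcont G' B' hG3 hG4).const_mul α).add continuous_const).intervalIntegrable _ _)
        fun r _ => h1 r
    rw [intervalIntegral.integral_add
      (((hcont G' B' hG3 hG4).const_mul α).intervalIntegrable _ _)
      (continuous_const.intervalIntegrable _ _), intervalIntegral.integral_const_mul,
      intervalIntegral.integral_const, smul_eq_mul] at h2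
    linarith
  have hal2 : 0 < al + 2 := by linarith
  -- (1)
  have hD : ∫ r in s..t, ∫ x, mm (al + 2) l (v r x) ∂μ ≤ 1 / (2 * a) * ‖Z s‖ ^ 2 := by
    have h1 : ∀ r, a * ∫ x, mm (al + 2) l (v r x) ∂μ ≤
        ⟪nem μ (gl a al l) (v r), v r⟫_ℝ := by
      intro r
      rw [nIn, ← integral_const_mul]
      refine integral_mono ((hint _ _ (hmmc _ hal2) (hmmB _ hal2) r).const_mul a)
        (nInt _ _) fun x => ?_
      have h2 := gco (v r x)
      have h3 := mul_le_mul_of_nonneg_left (gmm (v r x)) ha.le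
      simp only
      linarith
    have h4 : ∫ r in s..t, (a * ∫ x, mm (al + 2) l (v r x) ∂μ) ≤
        ∫ r in s..t, ⟪nem μ (gl a al l) (v r), v r⟫_ℝ :=
      intervalIntegral.integral_mono_on hst
        (((hcont _ _ (hmmc _ hal2) (hmmB _ hal2)).const_mul a).intervalIntegrable _ _)
        ((Fc.inner vc).intervalIntegrable _ _) fun r _ => h1 r
    rw [intervalIntegral.integral_const_mul] at h4
    have h5 := zen s t
    have h6 : 0 ≤ ‖Z t‖ ^ 2 := by positivity
    have h7 : a * (∫ r in s..t, ∫ x, mm (al + 2) l (v r x) ∂μ) ≤ ‖Z s‖ ^ 2 / 2 := by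
      linarith
    have h8 : 1 / (2 * a) * ‖Z s‖ ^ 2 = (‖Z s‖ ^ 2 / 2) / a := by
      field_simp
    rw [h8, le_div_iff₀ ha]
    linarith
  -- (2), (4)
  have hQ : ∀ q, 0 < q → q < al + 2 → ∫ r in s..t, ∫ x, mm q l (v r x) ∂μ ≤
      (1 / (2 * a) + mX) * (t - s) ^ ((al + 2 - q) / (al + 2)) *
        (‖Z s‖ ^ 2) ^ (q / (al + 2)) := by
    intro q hq hq2
    have hR : 0 ≤ (1 / (2 * a) + mX) * (t - s) ^ ((al + 2 - q) / (al + 2)) *
        (‖Z s‖ ^ 2) ^ (q / (al + 2)) := by
      have : 0 ≤ t - s := by linarith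
      positivity
    rcases hst.eq_or_lt with h | h
    · rw [h, intervalIntegral.integral_same]
      rw [h] at hR
      exact hR
    rcases (norm_nonneg (Z s)).eq_or_lt with hz | hz
    · have h1 : ∀ r ∈ Icc s t, ∫ x, mm q l (v r x) ∂μ = 0 := by
        intro r hr
        have h2 : ‖Z r‖ ≤ 0 := by
          rw [hz]
          exact zdec s r hr.1
        have h3 : Z r = 0 := norm_le_zero_iff.1 h2
        have h4 : v r = 0 := by
          rw [← hvr, h3, map_zero, map_zero]
        rw [h4]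
        have h5 : ∀ᵐ x ∂μ, mm q l ((0 : Lp ℝ 2 μ) x) = 0 := by
          filter_upwards [Lp.coeFn_zero ℝ 2 μ] with x hx
          rw [hx]
          unfold mm
          rw [Pi.zero_apply, abs_zero, min_eq_left hl.le, Real.zero_rpow hq.ne']
        rw [integral_congr_ae h5, integral_zero]
      have h6 : ∫ r in s..t, ∫ x, mm q l (v r x) ∂μ = ∫ r in s..t, (0 : ℝ) := by
        refine intervalIntegral.integral_congr fun r hr => ?_
        rw [uIcc_of_le hst] at hr
        exact h1 r hr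
      rw [h6, intervalIntegral.integral_zero]
      exact hR
    · refine dsp_opt (by positivity) (by linarith) hq hq2 fun τ hτ => ?_
      have h1 := hcmp (mm q l) (mm (al + 2) l) _ _ (τ ^ (q - (al + 2))) (τ ^ q) (hmmc q hq)
        (hmmB q hq) (hmmc _ hal2) (hmmB _ hal2) (by positivity)
        (fun y => dsp_pt1 y hq hq2 hl hτ)
      have h2 : τ ^ (q - (al + 2)) * (∫ r in s..t, ∫ x, mm (al + 2) l (v r x) ∂μ) ≤
          τ ^ (q - (al + 2)) * (1 / (2 * a) * ‖Z s‖ ^ 2) :=
        mul_le_mul_of_nonneg_left hD (by positivity)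
      calc _ ≤ _ := h1
        _ ≤ τ ^ (q - (al + 2)) * (1 / (2 * a) * ‖Z s‖ ^ 2) + τ ^ q * (t - s) * mX := by linarith
        _ = _ := by ring
  have hts : 0 ≤ t - s := by linarith
  refine ⟨?_, ?_, ?_, ?_⟩
  · refine hD.trans ?_
    exact mul_le_mul_of_nonneg_right hC1 (by positivity)
  · intro h2
    have h3 := hQ (al - 2) (by linarith) (by linarith)
    rw [show al + 2 - (al - 2) = 4 by ring] at h3
    refine h3.trans ?_
    have h4 : 0 ≤ (t - s) ^ (4 / (al + 2)) * (‖Z s‖ ^ 2) ^ ((al - 2) / (al + 2)) := by positivity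
    have h5 := mul_le_mul_of_nonneg_right hC2 h4
    linarith
  · intro M hM
    have hmaxc : Continuous fun y => max (ql a al l y - M) 0 :=
      (qlc.sub continuous_const).max continuous_const
    have hqlB : ∀ y, ql a al l y ≤ a * (al + 1) * l ^ al := by
      intro y
      unfold ql
      exact mul_le_mul_of_nonneg_left (hmml al hal y) hA.le
    have hmaxB : ∀ y, |max (ql a al l y - M) 0| ≤ a * (al + 1) * l ^ al := by
      intro y
      rw [abs_of_nonneg (le_max_right _ _)]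
      refine max_le ?_ (by positivity)
      have := hqlB y
      linarith
    have h1 := hcmp (fun y => max (ql a al l y - M) 0) (mm (al + 2) l) _ _
      ((a * (al + 1)) ^ (1 + 2 / al) * M ^ (-(2 / al))) 0 hmaxc hmaxB (hmmc _ hal2)
      (hmmB _ hal2) le_rfl (fun y => by
        have := dsp_pt2 y ha hal hl hM
        linarith)
    rw [← hAdef] at h1
    have h2 : A ^ (1 + 2 / al) * M ^ (-(2 / al)) *
        (∫ r in s..t, ∫ x, mm (al + 2) l (v r x) ∂μ) ≤
        A ^ (1 + 2 / al) * M ^ (-(2 / al)) * (1 / (2 * a) * ‖Z s‖ ^ 2) :=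
      mul_le_mul_of_nonneg_left hD (by positivity)
    have h3 : 0 ≤ M ^ (-(2 / al)) * ‖Z s‖ ^ 2 := by positivity
    have h4 := mul_le_mul_of_nonneg_right hC3 h3
    calc _ ≤ _ := h1
      _ ≤ A ^ (1 + 2 / al) * (1 / (2 * a)) * (M ^ (-(2 / al)) * ‖Z s‖ ^ 2) := by linarith
      _ ≤ _ := h4
      _ = _ := by ring
  · have h3 := hQ al hal (by linarith)
    rw [show al + 2 - al = 2 by ring] at h3
    have h4 : ∫ r in s..t, ∫ x, ql a al l (v r x) ∂μ =
        A * ∫ r in s..t, ∫ x, mm al l (v r x) ∂μ := by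
      unfold ql
      rw [← hAdef, ← intervalIntegral.integral_const_mul]
      refine intervalIntegral.integral_congr fun r _ => ?_
      rw [integral_const_mul]
    rw [h4]
    have h5 := mul_le_mul_of_nonneg_left h3 hA'.le
    have h6 : 0 ≤ (t - s) ^ (2 / (al + 2)) * (‖Z s‖ ^ 2) ^ (al / (al + 2)) := by positivity
    have h7 := mul_le_mul_of_nonneg_right hC4 h6
    linarith

end Pool.Agent.BEL.H30
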