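import Pool.Agent.BEL.StmtsP

/-! Squad BEL, module LWU: the local Weyl bound. -/

namespace Pool.Agent.BEL.H30

open Set Filter Topology MeasureTheory
open scoped InnerProductSpace ENNReal
open Pool.Agent.BE01

theorem sum_sq_le {ι : Type*} [Fintype ι] (v : ι → ℝ) (C : ℝ) (hC : 0 ≤ C)
    (h : ∀ q : ι → ℚ, |∑ i, (q i : ℝ) * v i| ≤ C * √(∑ i, (q i : ℝ) ^ 2)) :
    ∑ i, v i ^ 2 ≤ C ^ 2 := by
  have h' : ∀ w : ι → ℝ, |∑ i, w i * v i| ≤ C * √(∑ i, w i ^ 2) := by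
    have hd : DenseRange (fun q : ι → ℚ => fun i => ((q i : ℚ) : ℝ)) :=
      DenseRange.piMap (fun _ => Rat.denseRange_cast)
    intro w
    refine hd.induction_on (p := fun w : ι → ℝ => |∑ i, w i * v i| ≤ C * √(∑ i, w i ^ 2)) w ?_ h
    exact isClosed_le (by fun_prop) (by fun_prop)
  have h1 := h' v
  have h2 : ∑ i, v i * v i = ∑ i, v i ^ 2 := Finset.sum_congr rfl fun i _ => by ring
  have h0 : 0 ≤ ∑ i, v i ^ 2 := Finset.sum_nonneg fun i _ => sq_nonneg _
  rw [h2, abs_of_nonneg h0] at h1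
  have h3 : √(∑ i, v i ^ 2) * √(∑ i, v i ^ 2) = ∑ i, v i ^ 2 := Real.mul_self_sqrt h0
  have h4 : √(∑ i, v i ^ 2) ≤ C := by
    by_contra hc
    push Not at hc
    have hp : 0 < √(∑ i, v i ^ 2) := lt_of_le_of_lt hC hc
    have : C * √(∑ i, v i ^ 2) < √(∑ i, v i ^ 2) * √(∑ i, v i ^ 2) :=
      mul_lt_mul_of_pos_right hc hp
    linarith
  calc ∑ i, v i ^ 2 = √(∑ i, v i ^ 2) ^ 2 := by rw [sq, h3]
    _ ≤ C ^ 2 := by gcongr

theorem lwu (LIN : LinStmt) : LwuStmt := by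
  intro d Ω ι b e om hd hD hE hS
  obtain ⟨C, hC, hL⟩ := LIN d Ω ι b e om hd hD hE hS
  refine ⟨(Real.exp 1 * C) ^ 2, by positivity, fun n => ?_⟩
  have hw : 0 < om (n - 1) := hS.pos _
  set w := om (n - 1) with hwdef
  set t : ℝ := (w ^ 2)⁻¹ with htdef
  have ht : 0 < t := by positivity
  set K : ℝ := C * t ^ (-((d : ℝ) / 4)) with hK
  have hK0 : 0 ≤ K := by positivity
  have hK2 : K ^ 2 = C ^ 2 * w ^ d := by
    have e1 : t ^ (-((d : ℝ) / 4)) = w ^ ((d : ℝ) / 2) := by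
      rw [htdef, Real.inv_rpow (by positivity), ← Real.rpow_neg (by positivity),
        ← Real.rpow_natCast w 2, ← Real.rpow_mul hw.le]
      congr 1
      push_cast
      ring
    have e2 : (w ^ ((d : ℝ) / 2)) ^ 2 = w ^ d := by
      rw [← Real.rpow_natCast (w ^ ((d : ℝ) / 2)) 2, ← Real.rpow_mul hw.le,
        ← Real.rpow_natCast w d]
      congr 1
      push_cast
      ring
    rw [hK, e1, mul_pow, e2]
  have hexp : ∀ k : Fin n, 1 ≤ Real.exp 1 * Real.exp (-(t * om k ^ 2)) := by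
    intro k
    rw [← Real.exp_add]
    refine Real.one_le_exp ?_
    have h1 : om k ≤ w := hS.mono (by omega)
    have h2 : om k ^ 2 ≤ w ^ 2 := by
      have := hS.pos k
      gcongr
    have h3 : t * om k ^ 2 ≤ t * w ^ 2 := by gcongr
    have h4 : t * w ^ 2 = 1 := by
      rw [htdef]
      field_simp
    linarith
  have hon : ∀ i j : ℕ, ⟪b i, b j⟫_ℝ = if i = j then 1 else 0 := by
    intro i j
    exact orthonormal_iff_ite.1 b.orthonormal i j
  have hHeat : ∀ q : Fin n → ℚ, Heat b om t (∑ i : Fin n, (q i : ℝ) • b i)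
      (∑ i : Fin n, ((q i : ℝ) * Real.exp (-(t * om i ^ 2))) • b i) := by
    intro q k
    rw [inner_sum, inner_sum, Finset.mul_sum]
    refine Finset.sum_congr rfl fun i _ => ?_
    rw [inner_smul_right, inner_smul_right, hon]
    split_ifs with h
    · rw [h]
      ring
    · ring
  have h1 : ∀ᵐ x ∂(mu Ω), ∀ q : Fin n → ℚ,
      |(∑ i : Fin n, ((q i : ℝ) * Real.exp (-(t * om i ^ 2))) • b i : Lp ℝ 2 (mu Ω)) x| ≤
        K * ‖(∑ i : Fin n, (q i : ℝ) • b i : Lp ℝ 2 (mu Ω))‖ := by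
    rw [ae_all_iff]
    exact fun q => hL t _ _ ht (hHeat q)
  have h2 : ∀ᵐ x ∂(mu Ω), ∀ q : Fin n → ℚ,
      (∑ i : Fin n, ((q i : ℝ) * Real.exp (-(t * om i ^ 2))) • b i : Lp ℝ 2 (mu Ω)) x =
      ∑ i : Fin n, (q i : ℝ) * (Real.exp (-(t * om i ^ 2)) * b i x) := by
    rw [ae_all_iff]
    intro q
    have h3 : ((∑ i : Fin n, ((q i : ℝ) * Real.exp (-(t * om i ^ 2))) • b i : Lp ℝ 2 (mu Ω)) :
        En d → ℝ) =ᵐ[mu Ω]
        ∑ i : Fin n, ⇑(((q i : ℝ) * Real.exp (-(t * om i ^ 2))) • b i : Lp ℝ 2 (mu Ω)) :=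
      Lp.coeFn_finsetSum _ _
    have h4 : ∀ᵐ x ∂(mu Ω), ∀ i : Fin n,
        (((q i : ℝ) * Real.exp (-(t * om i ^ 2))) • b i : Lp ℝ 2 (mu Ω)) x =
          (q i : ℝ) * (Real.exp (-(t * om i ^ 2)) * b i x) := by
      rw [ae_all_iff]
      intro i
      filter_upwards [Lp.coeFn_smul ((q i : ℝ) * Real.exp (-(t * om i ^ 2))) (b i)] with x hx
      rw [hx, Pi.smul_apply, smul_eq_mul]
      ring
    filter_upwards [h3, h4] with x hx hx4
    rw [hx, Finset.sum_apply]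
    exact Finset.sum_congr rfl fun i _ => hx4 i
  filter_upwards [h1, h2] with x hx1 hx2
  have hmain := sum_sq_le (fun i : Fin n => Real.exp (-(t * om i ^ 2)) * b i x) K hK0
    (fun q => by
      have h5 := hx1 q
      rw [hx2 q] at h5
      have h6 : ‖(∑ i : Fin n, (q i : ℝ) • b i : Lp ℝ 2 (mu Ω))‖ = √(∑ i, (q i : ℝ) ^ 2) := by
        rw [@norm_eq_sqrt_real_inner]
        congr 1
        rw [sum_inner]
        refine Finset.sum_congr rfl fun i _ => ?_
        rw [inner_sum, Finset.sum_eq_single i]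
        · rw [inner_smul_left, inner_smul_right, hon, if_pos rfl]
          simp [sq]
        · intro j _ hj
          rw [inner_smul_left, inner_smul_right, hon, if_neg (fun h => hj (Fin.ext h.symm))]
          simp
        · intro h
          exact absurd (Finset.mem_univ i) h
      rwa [h6] at h5)
  rw [hK2] at hmain
  rw [Finset.sum_range (fun k => (b k x) ^ 2)]
  calc ∑ i : Fin n, (b i x) ^ 2
      ≤ ∑ i : Fin n, Real.exp 1 ^ 2 * (Real.exp (-(t * om i ^ 2)) * b i x) ^ 2 := by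
        refine Finset.sum_le_sum fun i _ => ?_
        have h7 : Real.exp 1 ^ 2 * (Real.exp (-(t * om i ^ 2)) * b i x) ^ 2 =
            (Real.exp 1 * Real.exp (-(t * om i ^ 2))) ^ 2 * (b i x) ^ 2 := by ring
        rw [h7]
        have h8 : (1 : ℝ) ≤ (Real.exp 1 * Real.exp (-(t * om i ^ 2))) ^ 2 :=
          one_le_pow₀ (hexp i)
        nlinarith [sq_nonneg (b i x)]
    _ = Real.exp 1 ^ 2 * ∑ i : Fin n, (Real.exp (-(t * om i ^ 2)) * b i x) ^ 2 := by
        rw [Finset.mul_sum]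
    _ ≤ Real.exp 1 ^ 2 * (C ^ 2 * w ^ d) := by
        refine mul_le_mul_of_nonneg_left hmain (by positivity)
    _ = (Real.exp 1 * C) ^ 2 * w ^ d := by ring

end Pool.Agent.BEL.H30
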