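import Pool.Agent.BEL.StmtsE

/-! Squad BEL, module REG: regularity of the flow for data with finitely many modes. -/

namespace Pool.Agent.BEL.H30

open MeasureTheory Filter Topology Set
open scoped InnerProductSpace ENNReal NNReal

theorem kk_norm {H : Type} [NormedAddCommGroup H] [InnerProductSpace ℝ H] (z : KK H) :
    ‖z‖ ^ 2 = ‖P1 z‖ ^ 2 + ‖P2 z‖ ^ 2 := WithLp.prod_norm_sq_eq_of_L2 z

theorem fin_norm {H : Type} [NormedAddCommGroup H] [InnerProductSpace ℝ H] [CompleteSpace H]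
    {κ : Type} (b : HilbertBasis κ ℝ H) (J : Finset κ) (x : H)
    (hx : ∀ j, j ∉ J → ⟪b j, x⟫_ℝ = 0) : ‖x‖ ^ 2 = ∑ j ∈ J, ⟪b j, x⟫_ℝ ^ 2 := by
  have h1 := b.hasSum_inner_mul_inner x x
  have h2 : HasSum (fun i => ⟪x, b i⟫_ℝ * ⟪b i, x⟫_ℝ) (∑ j ∈ J, ⟪x, b j⟫_ℝ * ⟪b j, x⟫_ℝ) :=
    hasSum_sum_of_ne_finset_zero fun j hj => by rw [hx j hj, mul_zero]
  rw [← real_inner_self_eq_norm_sq, h1.unique h2]
  refine Finset.sum_congr rfl fun j _ => ?_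
  rw [real_inner_comm, sq]

theorem reg (GRQ : GrqStmt) (FLP : FlpStmt) (COO : CooStmt) : RegStmt := by
  classical
  intro H _ _ _ κ b om W R F K V J Z hG hR hom hL hM hF0 hV hZ t ht
  obtain ⟨W0, Wadd, Wn, -, -, -, -, hinj⟩ := GRQ H κ b om W hG
  obtain ⟨a0, ha0⟩ : ∃ a0, a0 = Real.sqrt (∑ j ∈ J, om j ^ 2 * (⟪b j, P1 V⟫_ℝ ^ 2 +
    ⟪b j, P2 V⟫_ℝ ^ 2)) := ⟨_, rfl⟩
  rw [← ha0]
  have ha0' : 0 ≤ a0 := by
    rw [ha0]
    exact Real.sqrt_nonneg _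
  have ha0sq : a0 ^ 2 = ∑ j ∈ J, om j ^ 2 * (⟪b j, P1 V⟫_ℝ ^ 2 + ⟪b j, P2 V⟫_ℝ ^ 2) := by
    rw [ha0, Real.sq_sqrt]
    exact Finset.sum_nonneg fun j _ => by positivity
  -- (1)
  have hU : ∀ h : ℝ, ‖W (t + h) (Z (t + h)) - W t (Z t)‖ ≤ ‖W h (Z h) - V‖ := by
    intro h
    have hfl : IsFl W F (W h (Z h)) (fun s => W h (Z (s + h))) := by
      refine ⟨by simp, fun s => ?_⟩
      have h1 : HasDerivAt (fun s => Z (s + h))
          (-(W (-(s + h)) (inj (F (P2 (W (s + h) (Z (s + h)))))))) s :=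
        (hZ.eq (s + h)).comp_add_const s h
      have h2 := (W h).hasFDerivAt.comp_hasDerivAt s h1
      have h3 : W h (-(W (-(s + h)) (inj (F (P2 (W (s + h) (Z (s + h)))))))) =
          -(W (-s) (inj (F (P2 (W s (W h (Z (s + h)))))))) := by
        rw [map_neg, ← Wadd, ← Wadd, show h + -(s + h) = -s by ring]
      rw [← h3]
      exact h2
    have h4 := (FLP H κ b om W F K hG hL hM hF0 _ _ _ _ hfl hZ).2.2.2.1 0 t ht
    have h5 : W (t + h) (Z (t + h)) = W t (W h (Z (t + h))) := Wadd t h _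
    rw [h5, ← map_sub, Wn]
    rw [hZ.z0] at h4
    simpa using h4
  -- (2)
  have hrot : ∀ h : ℝ, ‖V - W (-h) V‖ ≤ |h| * a0 := by
    intro h
    have hc1 : ∀ j, ⟪b j, P1 (V - W (-h) V)⟫_ℝ =
        (1 - Real.cos (om j * h)) * ⟪b j, P1 V⟫_ℝ + Real.sin (om j * h) * ⟪b j, P2 V⟫_ℝ := by
      intro j
      rw [map_sub, inner_sub_right, hG.c1, mul_neg, Real.cos_neg, Real.sin_neg]
      ring
    have hc2 : ∀ j, ⟪b j, P2 (V - W (-h) V)⟫_ℝ =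
        -Real.sin (om j * h) * ⟪b j, P1 V⟫_ℝ + (1 - Real.cos (om j * h)) * ⟪b j, P2 V⟫_ℝ := by
      intro j
      rw [map_sub, inner_sub_right, hG.c2, mul_neg, Real.cos_neg, Real.sin_neg]
      ring
    have h1 := fin_norm b J (P1 (V - W (-h) V)) fun j hj => by
      rw [hc1, (hV j hj).1, (hV j hj).2]
      ring
    have h2 := fin_norm b J (P2 (V - W (-h) V)) fun j hj => by
      rw [hc2, (hV j hj).1, (hV j hj).2]
      ring
    have h3 : ‖V - W (-h) V‖ ^ 2 ≤ (|h| * a0) ^ 2 := by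
      rw [kk_norm, h1, h2, ← Finset.sum_add_distrib, mul_pow, sq_abs, ha0sq, Finset.mul_sum]
      refine Finset.sum_le_sum fun j _ => ?_
      rw [hc1, hc2]
      have h4 := Real.one_sub_sq_div_two_le_cos (x := om j * h)
      have h5 := Real.sin_sq_add_cos_sq (om j * h)
      have h6 : ((1 - Real.cos (om j * h)) * ⟪b j, P1 V⟫_ℝ +
          Real.sin (om j * h) * ⟪b j, P2 V⟫_ℝ) ^ 2 +
          (-Real.sin (om j * h) * ⟪b j, P1 V⟫_ℝ +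
            (1 - Real.cos (om j * h)) * ⟪b j, P2 V⟫_ℝ) ^ 2 =
          (2 - 2 * Real.cos (om j * h)) * (⟪b j, P1 V⟫_ℝ ^ 2 + ⟪b j, P2 V⟫_ℝ ^ 2) := by
        have h7 : Real.sin (om j * h) ^ 2 = 1 - Real.cos (om j * h) ^ 2 := by linarith
        ring_nf
        rw [h7]
        ring
      rw [h6]
      have h8 : h ^ 2 * (om j ^ 2 * (⟪b j, P1 V⟫_ℝ ^ 2 + ⟪b j, P2 V⟫_ℝ ^ 2)) =
          (om j * h) ^ 2 * (⟪b j, P1 V⟫_ℝ ^ 2 + ⟪b j, P2 V⟫_ℝ ^ 2) := by ring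
      rw [h8]
      exact mul_le_mul_of_nonneg_right (by linarith) (by positivity)
    exact (sq_le_sq₀ (norm_nonneg _) (by positivity)).1 h3
  have hUV : ∀ h : ℝ, ‖W h (Z h) - V‖ ≤ ‖Z h - V‖ + |h| * a0 := by
    intro h
    have h1 : V = W h (W (-h) V) := by
      rw [← Wadd, add_neg_cancel, W0]
    have h2 : ‖W h (Z h) - V‖ = ‖Z h - W (-h) V‖ := by
      nth_rewrite 1 [h1]
      rw [← map_sub, Wn]
    have h3 : Z h - W (-h) V = (Z h - V) + (V - W (-h) V) := by abel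
    rw [h2, h3]
    refine (norm_add_le _ _).trans ?_
    have := hrot h
    linarith
  have hZ0 : Tendsto (fun h : ℝ => ‖h⁻¹ • (Z h - V)‖) (𝓝[≠] 0) (𝓝 ‖F (P2 V)‖) := by
    have h1 := (hZ.eq 0).tendsto_slope_zero.norm
    rw [hZ.z0, norm_neg, Wn, W0, hinj] at h1
    simpa using h1
  -- (3)
  obtain ⟨M, hMdef⟩ : ∃ M, M = a0 + ‖F (P2 V)‖ := ⟨_, rfl⟩
  rw [← hMdef]
  have hM0 : 0 ≤ M := by
    rw [hMdef]
    positivity
  have hI : ∀ I : Finset κ, ∑ j ∈ I, (om j * ⟪b j, P2 (W t (Z t))⟫_ℝ) ^ 2 ≤ M ^ 2 := by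
    intro I
    have h1 : Tendsto (fun h : ℝ => ∑ j ∈ I, (h⁻¹ • (⟪b j, P1 (W (t + h) (Z (t + h)))⟫_ℝ -
        ⟪b j, P1 (W t (Z t))⟫_ℝ)) ^ 2) (𝓝[≠] 0)
        (𝓝 (∑ j ∈ I, (om j * ⟪b j, P2 (W t (Z t))⟫_ℝ) ^ 2)) := by
      refine tendsto_finsetSum _ fun j _ => ?_
      exact ((COO H κ b om W F V Z j t hG hZ).1.tendsto_slope_zero).pow 2
    have h2 : Tendsto (fun h : ℝ => (a0 + ‖h⁻¹ • (Z h - V)‖) ^ 2) (𝓝[≠] 0) (𝓝 (M ^ 2)) := by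
      rw [hMdef]
      exact (tendsto_const_nhds.add hZ0).pow 2
    refine le_of_tendsto_of_tendsto h1 h2 ?_
    filter_upwards [self_mem_nhdsWithin] with h hh
    have hh0 : h ≠ 0 := hh
    have hhp : 0 < |h| := abs_pos.2 hh0
    have h3 : ∑ j ∈ I, (h⁻¹ • (⟪b j, P1 (W (t + h) (Z (t + h)))⟫_ℝ -
        ⟪b j, P1 (W t (Z t))⟫_ℝ)) ^ 2 =
        (|h|⁻¹) ^ 2 * ∑ j ∈ I, ‖⟪b j, P1 (W (t + h) (Z (t + h)) - W t (Z t))⟫_ℝ‖ ^ 2 := by
      rw [Finset.mul_sum]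
      refine Finset.sum_congr rfl fun j _ => ?_
      rw [map_sub, inner_sub_right, smul_eq_mul, Real.norm_eq_abs, sq_abs, mul_pow, inv_pow,
        inv_pow, sq_abs]
    have h4 : ∑ j ∈ I, ‖⟪b j, P1 (W (t + h) (Z (t + h)) - W t (Z t))⟫_ℝ‖ ^ 2 ≤
        ‖W (t + h) (Z (t + h)) - W t (Z t)‖ ^ 2 := by
      refine (b.orthonormal.sum_inner_products_le _).trans ?_
      rw [kk_norm]
      have : 0 ≤ ‖P2 (W (t + h) (Z (t + h)) - W t (Z t))‖ ^ 2 := by positivity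
      linarith
    have h5 : ‖W (t + h) (Z (t + h)) - W t (Z t)‖ ≤ ‖Z h - V‖ + |h| * a0 :=
      (hU h).trans (hUV h)
    have h6 : |h|⁻¹ * (‖Z h - V‖ + |h| * a0) = a0 + ‖h⁻¹ • (Z h - V)‖ := by
      rw [norm_smul, norm_inv, Real.norm_eq_abs]
      field_simp
      ring
    calc _ = _ := h3
      _ ≤ (|h|⁻¹) ^ 2 * ‖W (t + h) (Z (t + h)) - W t (Z t)‖ ^ 2 :=
        mul_le_mul_of_nonneg_left h4 (by positivity)
      _ ≤ (|h|⁻¹) ^ 2 * (‖Z h - V‖ + |h| * a0) ^ 2 := by gcongr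
      _ = (a0 + ‖h⁻¹ • (Z h - V)‖) ^ 2 := by rw [← mul_pow, h6]
  have hmem : Memℓp (fun j : κ => om j * ⟪b j, P2 (W t (Z t))⟫_ℝ) 2 := by
    refine memℓp_gen' (C := M ^ 2) fun s => ?_
    have h1 : ∀ j : κ, ‖om j * ⟪b j, P2 (W t (Z t))⟫_ℝ‖ ^ (2 : ℝ≥0∞).toReal =
        (om j * ⟪b j, P2 (W t (Z t))⟫_ℝ) ^ 2 := by
      intro j
      rw [ENNReal.toReal_ofNat, Real.rpow_ofNat, Real.norm_eq_abs, sq_abs]
    rw [Finset.sum_congr rfl fun j _ => h1 j]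
    exact hI s
  have hcoord : ∀ j, ⟪b j, b.repr.symm ⟨_, hmem⟩⟫_ℝ = om j * ⟪b j, P2 (W t (Z t))⟫_ℝ := by
    intro j
    rw [← b.repr_apply_apply, LinearIsometryEquiv.apply_symm_apply]
  refine ⟨b.repr.symm ⟨_, hmem⟩, ?_, ?_⟩
  · apply b.repr.injective
    apply lp.ext
    funext j
    rw [b.repr_apply_apply, b.repr_apply_apply, hR, hcoord]
    have := (hom j).ne'
    field_simp
  · rw [LinearIsometryEquiv.norm_map]
    refine lp.norm_le_of_forall_sum_le (by norm_num) hM0 fun s => ?_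
    have h1 : ∀ j : κ, ‖om j * ⟪b j, P2 (W t (Z t))⟫_ℝ‖ ^ (2 : ℝ≥0∞).toReal =
        (om j * ⟪b j, P2 (W t (Z t))⟫_ℝ) ^ 2 := by
      intro j
      rw [ENNReal.toReal_ofNat, Real.rpow_ofNat, Real.norm_eq_abs, sq_abs]
    rw [Finset.sum_congr rfl fun j _ => h1 j, ENNReal.toReal_ofNat, Real.rpow_ofNat]
    exact hI s

end Pool.Agent.BEL.H30
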